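import Pool.Agent.Q153.Tau4.Sound
import Pool.Agent.Q153.TwoIndTau

/-!
# The bound for `ZMod 73` and explicit sets in `ZMod 71` and `ZMod 75`
-/

set_option autoImplicit false

namespace Pool.Agent.Q153.Tau4

open Pool.Agent.Q153.TwoInd

instance : Fact (Nat.Prime 73) := ⟨by norm_num⟩

lemma natAbs_cast (z : ZMod 73) :
    ∃ ε : ℤ, |ε| = 1 ∧ ((z.valMinAbs.natAbs : ℕ) : ZMod 73) = (ε : ZMod 73) * z := by
  have h := ZMod.coe_valMinAbs z
  rcases Int.natAbs_eq z.valMinAbs with h1 | h1
  · refine ⟨1, by norm_num, ?_⟩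
    rw [Int.cast_one, one_mul, ← Int.cast_natCast, ← h1, h]
  · refine ⟨-1, by norm_num, ?_⟩
    have h2 : ((z.valMinAbs.natAbs : ℕ) : ℤ) = -z.valMinAbs := by omega
    rw [← Int.cast_natCast, h2, Int.cast_neg, h]; simp

theorem card_lt {A : Finset (ZMod 73)} (hA : Pool.Agent.Q153.TwoInd.Independent 4 A) :
    A.card < 5 := by
  classical
  by_contra hcard
  push Not at hcard
  obtain ⟨a0, ha0⟩ : A.Nonempty := Finset.card_pos.1 (by omega)
  have ha0ne : a0 ≠ 0 := by
    intro h0
    refine hA (fun a => if a = a0 then 1 else 0) ?_ ?_ ?_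
    · have : ∑ a ∈ A, |(if a = a0 then (1 : ℤ) else 0)| = 1 := by
        rw [Finset.sum_eq_single_of_mem a0 ha0]
        · simp
        · intro b _ hb; simp [hb]
      rw [this]
    · have : ∑ a ∈ A, |(if a = a0 then (1 : ℤ) else 0)| = 1 := by
        rw [Finset.sum_eq_single_of_mem a0 ha0]
        · simp
        · intro b _ hb; simp [hb]
      rw [this]; norm_num
    · rw [Finset.sum_eq_single_of_mem a0 ha0]
      · simp [h0]
      · intro b _ hb; simp [hb]
  let φ : ZMod 73 → ℕ := fun a => (a0⁻¹ * a).valMinAbs.natAbs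
  choose ε hε1 hε2 using fun a : ZMod 73 => natAbs_cast (a0⁻¹ * a)
  -- injectivity
  have hinj : Set.InjOn φ A := by
    intro a ha b hb hab
    by_contra hne
    have h1 : (ε a : ZMod 73) * (a0⁻¹ * a) = (ε b : ZMod 73) * (a0⁻¹ * b) := by
      rw [← hε2, ← hε2]
      exact congrArg _ hab
    have h2 : (ε a : ZMod 73) * a + ((-ε b : ℤ) : ZMod 73) * b = 0 := by
      have : a0 * ((ε a : ZMod 73) * (a0⁻¹ * a)) = a0 * ((ε b : ZMod 73) * (a0⁻¹ * b)) := by
        rw [h1]
      have e1 : ∀ x y : ZMod 73, a0 * (x * (a0⁻¹ * y)) = x * y := by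
        intro x y; field_simp
      rw [e1, e1] at this
      push_cast
      rw [this]; ring
    have hsum : ∀ f : ZMod 73 → ℤ, ∑ x ∈ A, (if x = a then f a else if x = b then f b else 0) =
        f a + f b := by
      intro f
      rw [← Finset.sum_subset (s₁ := {a, b})]
      · rw [Finset.sum_pair hne]; simp [Ne.symm hne]
      · intro x hx
        simp only [Finset.mem_insert, Finset.mem_singleton] at hx
        rcases hx with rfl | rfl
        · exact ha
        · exact hb
      · intro x _ hx
        simp only [Finset.mem_insert, Finset.mem_singleton, not_or] at hx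
        rw [if_neg hx.1, if_neg hx.2]
    have habs : ∑ x ∈ A, |(if x = a then ε a else if x = b then -ε b else 0)| = 2 := by
      have := hsum fun _ => 1
      simp only [Int.reduceAdd] at this
      rw [← this]
      refine Finset.sum_congr rfl fun x _ => ?_
      split_ifs
      · exact hε1 a
      · rw [abs_neg]; exact hε1 b
      · simp
    refine hA (fun x => if x = a then ε a else if x = b then -ε b else 0) ?_ ?_ ?_
    · rw [habs]; norm_num
    · rw [habs]; norm_num
    · have : ∑ x ∈ A, (if x = a then ε a else if x = b then -ε b else 0) • x =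
          ε a • a + (-ε b) • b := by
        rw [← Finset.sum_subset (s₁ := {a, b})]
        · rw [Finset.sum_pair hne]; simp [Ne.symm hne]
        · intro x hx
          simp only [Finset.mem_insert, Finset.mem_singleton] at hx
          rcases hx with rfl | rfl
          · exact ha
          · exact hb
        · intro x _ hx
          simp only [Finset.mem_insert, Finset.mem_singleton, not_or] at hx
          rw [if_neg hx.1, if_neg hx.2, zero_smul]
      rw [this, zsmul_eq_mul, zsmul_eq_mul, h2]
  have hInd : Ind (A.image φ) := by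
    intro c h1 h2
    rw [Finset.sum_image hinj] at h1 h2 ⊢
    have h3 := hA (fun a => c (φ a) * ε a) (by simpa [abs_mul, hε1] using h1)
      (by simpa [abs_mul, hε1] using h2)
    intro h4
    apply h3
    have h5 : ∑ a ∈ A, (c (φ a) * ε a) • a =
        a0 * ∑ a ∈ A, (c (φ a) : ZMod 73) * ((φ a : ℕ) : ZMod 73) := by
      rw [Finset.mul_sum]
      refine Finset.sum_congr rfl fun a _ => ?_
      rw [zsmul_eq_mul, show ((φ a : ℕ) : ZMod 73) = (ε a : ZMod 73) * (a0⁻¹ * a) from hε2 a]
      push_cast
      field_simp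
    rw [h5, h4, mul_zero]
  have h1mem : 1 ∈ A.image φ := by
    rw [Finset.mem_image]
    refine ⟨a0, ha0, ?_⟩
    change (a0⁻¹ * a0).valMinAbs.natAbs = 1
    rw [inv_mul_cancel₀ ha0ne]
    decide
  have hle : ∀ i ∈ A.image φ, 1 ≤ i ∧ i ≤ 36 := by
    intro i hi
    have hi' := hi
    rw [Finset.mem_image] at hi
    obtain ⟨a, ha, rfl⟩ := hi
    constructor
    · by_contra hcon
      have h0 : φ a = 0 := by omega
      rw [h0] at hi'
      refine hInd (fun i => if i = 0 then 1 else 0) ?_ ?_ ?_
      · rw [Finset.sum_eq_single_of_mem 0 hi']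
        · simp
        · intro b _ hb; simp [hb]
      · rw [Finset.sum_eq_single_of_mem 0 hi']
        · simp
        · intro b _ hb; simp [hb]
      · rw [Finset.sum_eq_single_of_mem 0 hi']
        · simp
        · intro b _ hb; simp [hb]
    · have := ZMod.natAbs_valMinAbs_le (a0⁻¹ * a)
      exact this
  have := card_lt_five hInd h1mem hle
  rw [Finset.card_image_of_injOn hinj] at this
  omega

/-- the list of the coefficient vectors of weight at most `w` -/
def check (n : ℤ) : List ℤ → ℕ → ℤ → Bool → Bool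
  | [], _, s, nz => !nz || decide (s % n ≠ 0)
  | a :: l, w, s, nz =>
    (List.range (w + 1)).all fun i =>
      check n l (w - i) (s + i * a) (nz || decide (i ≠ 0)) &&
      check n l (w - i) (s - i * a) (nz || decide (i ≠ 0))

lemma sum_abs_nonneg (cs : List ℤ) : 0 ≤ (cs.map fun x => |x|).sum := by
  induction cs with
  | nil => simp
  | cons a l ih => simp only [List.map_cons, List.sum_cons]; have := abs_nonneg a; omega

lemma check_sound (n : ℤ) : ∀ (l : List ℤ) (w : ℕ) (s : ℤ) (nz : Bool), check n l w s nz = true →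
    ∀ cs : List ℤ, cs.length = l.length → (cs.map fun x => |x|).sum ≤ w →
      (nz = true ∨ 1 ≤ (cs.map fun x => |x|).sum) →
      (s + (List.zipWith (fun x y => x * y) cs l).sum) % n ≠ 0
  | [], w, s, nz, h, cs, hlen, h1, h2 => by
    have hcs : cs = [] := List.length_eq_zero_iff.1 hlen
    subst hcs
    simp only [List.map_nil, List.sum_nil] at h1 h2
    have : nz = true := by
      rcases h2 with h2 | h2
      · exact h2
      · omega
    rw [check, this] at h
    simpa using h
  | a :: l, w, s, nz, h, [], hlen, h1, h2 => by simp at hlen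
  | a :: l, w, s, nz, h, x :: cs, hlen, h1, h2 => by
    rw [check, List.all_eq_true] at h
    simp only [List.map_cons, List.sum_cons, List.zipWith_cons_cons] at h1 h2 ⊢
    have hlen' : cs.length = l.length := by simpa using hlen
    have h0 := sum_abs_nonneg cs
    have hx := Int.abs_eq_natAbs x
    have h3 := h x.natAbs (by rw [List.mem_range]; omega)
    rw [Bool.and_eq_true] at h3
    have hw : (cs.map fun x => |x|).sum ≤ ((w - x.natAbs : ℕ) : ℤ) := by omega
    have hnz : (nz || decide (x.natAbs ≠ 0)) = true ∨ 1 ≤ (cs.map fun x => |x|).sum := by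
      rcases h2 with h2 | h2
      · left; rw [h2]; rfl
      · by_cases h5 : x.natAbs = 0
        · right; omega
        · left; simp [h5]
    rcases Int.natAbs_eq x with h4 | h4
    · have := check_sound n l _ _ _ h3.1 cs hlen' hw hnz
      rw [← h4] at this
      rwa [add_assoc] at this
    · have := check_sound n l _ _ _ h3.2 cs hlen' hw hnz
      have h6 : s - (x.natAbs : ℤ) * a = s + x * a := by
        have : (x.natAbs : ℤ) = -x := by omega
        rw [this]; ring
      rw [h6] at this
      rwa [add_assoc] at this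

/-- explicit sets of five elements -/
lemma indep_five {n : ℕ} {a b c d e : ℤ}
    (hnd : ((a : ZMod n) ≠ b ∧ (a : ZMod n) ≠ c ∧ (a : ZMod n) ≠ d ∧ (a : ZMod n) ≠ e) ∧
      ((b : ZMod n) ≠ c ∧ (b : ZMod n) ≠ d ∧ (b : ZMod n) ≠ e) ∧
      ((c : ZMod n) ≠ d ∧ (c : ZMod n) ≠ e) ∧ (d : ZMod n) ≠ e)
    (h : check n [a, b, c, d, e] 4 0 false = true) :
    ∃ A : Finset (ZMod n), Pool.Agent.Q153.TwoInd.Independent 4 A ∧ A.card = 5 := by
  classical
  obtain ⟨⟨h1, h2, h3, h4⟩, ⟨h5, h6, h7⟩, ⟨h8, h9⟩, h10⟩ := hnd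
  have m1 : (a : ZMod n) ∉ ({(b : ZMod n), (c : ZMod n), (d : ZMod n), (e : ZMod n)} :
      Finset (ZMod n)) := by simp [h1, h2, h3, h4]
  have m2 : (b : ZMod n) ∉ ({(c : ZMod n), (d : ZMod n), (e : ZMod n)} :
      Finset (ZMod n)) := by simp [h5, h6, h7]
  have m3 : (c : ZMod n) ∉ ({(d : ZMod n), (e : ZMod n)} : Finset (ZMod n)) := by simp [h8, h9]
  have m4 : (d : ZMod n) ∉ ({(e : ZMod n)} : Finset (ZMod n)) := by simp [h10]
  refine ⟨{(a : ZMod n), (b : ZMod n), (c : ZMod n), (d : ZMod n), (e : ZMod n)}, ?_, ?_⟩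
  · intro f g1 g2 g3
    rw [Finset.sum_insert m1, Finset.sum_insert m2, Finset.sum_insert m3, Finset.sum_insert m4,
      Finset.sum_singleton] at g1 g2 g3
    have := check_sound n [a, b, c, d, e] 4 0 false h [f a, f b, f c, f d, f e] rfl
      (by simpa using g2) (by right; simpa using g1)
    apply this
    rw [← Int.dvd_iff_emod_eq_zero, ← ZMod.intCast_zmod_eq_zero_iff_dvd]
    simp only [zsmul_eq_mul] at g3
    rw [← g3]
    simp
  · rw [Finset.card_insert_of_notMem m1, Finset.card_insert_of_notMem m2,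
      Finset.card_insert_of_notMem m3, Finset.card_insert_of_notMem m4, Finset.card_singleton]

theorem tau71 : 5 ≤ Pool.Agent.Q153.TwoInd.tau 71 4 := by
  have : NeZero 71 := ⟨by norm_num⟩
  rw [le_tau_iff]
  exact indep_five (n := 71) (a := 1) (b := 4) (c := 11) (d := 17) (e := 31) (by decide +kernel)
    (by decide +kernel)

theorem tau75 : 5 ≤ Pool.Agent.Q153.TwoInd.tau 75 4 := by
  have : NeZero 75 := ⟨by norm_num⟩
  rw [le_tau_iff]
  exact indep_five (n := 75) (a := 1) (b := 4) (c := 10) (d := 22) (e := 29) (by decide +kernel)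
    (by decide +kernel)

theorem tau73 : Pool.Agent.Q153.TwoInd.tau 73 4 < 5 := by
  have : NeZero 73 := ⟨by norm_num⟩
  by_contra hcon
  push Not at hcon
  rw [le_tau_iff] at hcon
  obtain ⟨A, hA, hc⟩ := hcon
  have := card_lt hA
  omega

end Pool.Agent.Q153.Tau4
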