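import Mathlib

/-!
# No five-element `4`-independent set modulo `73`

A verified search. Sets of residues modulo `73` are represented by the bits of natural numbers.
-/

set_option autoImplicit false

namespace Pool.Agent.Q153.Tau4

/-- rotation by `x` of a set of residues modulo `73` -/
def rot (M x : ℕ) : ℕ := (M <<< x) % 2 ^ 73 ||| (M <<< x) >>> 73

/-- the residues `0, ± i` -/
def s1 (B1 x : ℕ) : ℕ := B1 ||| (rot 1 x ||| rot 1 (73 - x))

/-- the residues of weight at most two -/
def s2 (B1 B2 x : ℕ) : ℕ :=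
  B2 ||| (rot B1 x ||| (rot B1 (73 - x) ||| (rot 1 (2 * x) ||| rot 1 (73 - 2 * x))))

/-- the residues of weight at most three -/
def s3 (B1 B2 B3 x : ℕ) : ℕ :=
  B3 ||| (rot B2 x ||| (rot B2 (73 - x) ||| (rot B1 (2 * x) ||| (rot B1 (73 - 2 * x) |||
    (rot 1 (3 * x % 73) ||| rot 1 (73 - 3 * x % 73))))))

/-- evaluation of the argument before the function is applied -/
def force (n : ℕ) (f : ℕ → Bool) : Bool :=
  Nat.rec (motive := fun _ => Bool) (f 0) (fun m _ => f (m + 1)) n

lemma force_eq (n : ℕ) (f : ℕ → Bool) : force n f = f n := by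
  cases n <;> rfl

/-- one step of the search -/
def body (f : ℕ) (ih : ℕ → ℕ → ℕ → ℕ → Bool) (cnt B1 B2 B3 : ℕ) : Bool :=
  force (36 - f) fun x =>
    (Nat.blt (cnt + f + 1) 5) ||
    ((ih cnt B1 B2 B3) &&
      (B3.testBit x || (B2.testBit (2 * x) || (B1.testBit (3 * x % 73) ||
        (Nat.blt cnt 4 && force (s1 B1 x) fun C1 => force (s2 B1 B2 x) fun C2 =>
          force (s3 B1 B2 B3 x) fun C3 => ih (cnt + 1) C1 C2 C3)))))

/-- the search: `true` means that there is no five-element extension by numbers `≥ 37 - fuel` -/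
noncomputable def search (fuel : ℕ) : ℕ → ℕ → ℕ → ℕ → Bool :=
  Nat.rec (motive := fun _ => ℕ → ℕ → ℕ → ℕ → Bool) (fun cnt _ _ _ => Nat.blt cnt 5)
    (fun f ih => body f ih) fuel

lemma search_zero (cnt B1 B2 B3 : ℕ) : search 0 cnt B1 B2 B3 = Nat.blt cnt 5 := rfl

lemma search_succ (f cnt B1 B2 B3 : ℕ) :
    search (f + 1) cnt B1 B2 B3 = body f (search f) cnt B1 B2 B3 := rfl

theorem search_true : search 35 1 (s1 1 1) (s2 1 1 1) (s3 1 1 1 1) = true := by
  decide +kernel

end Pool.Agent.Q153.Tau4
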