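import Pool.Agent.Q153.Tau4.Search

/-!
# Soundness of the search
-/

set_option autoImplicit false

namespace Pool.Agent.Q153.Tau4

/-- signed combinations of weight at most `j` -/
def Comb (R : Finset ℕ) (j : ℤ) : Set (ZMod 73) :=
  {z | ∃ c : ℕ → ℤ, ∑ i ∈ R, |c i| ≤ j ∧ ∑ i ∈ R, (c i : ZMod 73) * (i : ZMod 73) = z}

/-- `4`-independence -/
def Ind (R : Finset ℕ) : Prop :=
  ∀ c : ℕ → ℤ, 1 ≤ ∑ i ∈ R, |c i| → ∑ i ∈ R, |c i| ≤ 4 →
    ∑ i ∈ R, (c i : ZMod 73) * (i : ZMod 73) ≠ 0

lemma Ind.mono {R S : Finset ℕ} (hRS : R ⊆ S) (hS : Ind S) : Ind R := by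
  classical
  intro c h1 h2
  have e1 : ∑ a ∈ S, |if a ∈ R then c a else 0| = ∑ a ∈ R, |c a| := by
    rw [← Finset.sum_subset hRS]
    · exact Finset.sum_congr rfl fun a ha => by rw [if_pos ha]
    · intro a _ ha; rw [if_neg ha, abs_zero]
  have e2 : ∑ a ∈ S, (((if a ∈ R then c a else 0 : ℤ)) : ZMod 73) * (a : ZMod 73) =
      ∑ a ∈ R, (c a : ZMod 73) * (a : ZMod 73) := by
    rw [← Finset.sum_subset hRS]
    · exact Finset.sum_congr rfl fun a ha => by rw [if_pos ha]
    · intro a _ ha; rw [if_neg ha]; simp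
  rw [← e2]
  exact hS (fun a => if a ∈ R then c a else 0) (by rw [e1]; exact h1) (by rw [e1]; exact h2)

/-- all residues in `M` belong to `S` -/
def Sound (S : Set (ZMod 73)) (M : ℕ) : Prop := ∀ y, M.testBit y = true → (y : ZMod 73) ∈ S

lemma Sound.or {S : Set (ZMod 73)} {M N : ℕ} (hM : Sound S M) (hN : Sound S N) :
    Sound S (M ||| N) := by
  intro y hy
  rw [Nat.testBit_or, Bool.or_eq_true] at hy
  exact hy.elim (hM y) (hN y)

lemma Sound.mono {S T : Set (ZMod 73)} {M : ℕ} (hM : Sound S M) (hST : S ⊆ T) : Sound T M :=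
  fun y hy => hST (hM y hy)

lemma sound_rot {S T : Set (ZMod 73)} {M x : ℕ} (hM : Sound S M)
    (h : ∀ z ∈ S, z + (x : ZMod 73) ∈ T) : Sound T (rot M x) := by
  intro y hy
  unfold rot at hy
  rw [Nat.testBit_or, Bool.or_eq_true] at hy
  rcases hy with hy | hy
  · rw [Nat.testBit_mod_two_pow, Bool.and_eq_true, Nat.testBit_shiftLeft, Bool.and_eq_true] at hy
    obtain ⟨_, h1, h2⟩ := hy
    have h1 : x ≤ y := by simpa using h1
    have h3 := h _ (hM _ h2)
    rwa [← Nat.cast_add, Nat.sub_add_cancel h1] at h3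
  · rw [Nat.testBit_shiftRight, Nat.testBit_shiftLeft, Bool.and_eq_true] at hy
    obtain ⟨h1, h2⟩ := hy
    have h1 : x ≤ 73 + y := by simpa using h1
    have h3 := h _ (hM _ h2)
    rw [← Nat.cast_add, Nat.sub_add_cancel h1, Nat.cast_add] at h3
    have h4 : ((73 : ℕ) : ZMod 73) = 0 := by decide
    rwa [h4, zero_add] at h3

lemma comb_insert {R : Finset ℕ} {x : ℕ} (hx : x ∉ R) {j j' : ℤ} (k : ℤ) (hj : j + |k| ≤ j')
    {z : ZMod 73} (hz : z ∈ Comb R j) : z + (k : ZMod 73) * (x : ZMod 73) ∈ Comb (insert x R) j' := by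
  classical
  obtain ⟨c, h1, h2⟩ := hz
  refine ⟨fun i => if i = x then k else c i, ?_, ?_⟩
  · rw [Finset.sum_insert hx]
    have : ∑ i ∈ R, |if i = x then k else c i| = ∑ i ∈ R, |c i| := by
      refine Finset.sum_congr rfl fun i hi => ?_
      rw [if_neg]; rintro rfl; exact hx hi
    simp only [if_true]
    rw [this]; linarith
  · rw [Finset.sum_insert hx]
    have : ∑ i ∈ R, (((if i = x then k else c i : ℤ)) : ZMod 73) * (i : ZMod 73) =
        ∑ i ∈ R, (c i : ZMod 73) * (i : ZMod 73) := by
      refine Finset.sum_congr rfl fun i hi => ?_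
      rw [if_neg]; rintro rfl; exact hx hi
    simp only [if_true]
    rw [this, h2]; ring

lemma comb_mono {R : Finset ℕ} {x : ℕ} (hx : x ∉ R) {j : ℤ} : Comb R j ⊆ Comb (insert x R) j := by
  intro z hz
  have := comb_insert hx 0 (by simp : j + |0| ≤ j) hz
  simpa using this

lemma zero_mem_comb (R : Finset ℕ) {j : ℤ} (hj : 0 ≤ j) : (0 : ZMod 73) ∈ Comb R j :=
  ⟨fun _ => 0, by simpa using hj, by simp⟩

lemma sound_one (R : Finset ℕ) {j : ℤ} (hj : 0 ≤ j) : Sound (Comb R j) 1 := by
  intro y hy
  have : y = 0 := by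
    by_contra h
    obtain ⟨y', rfl⟩ := Nat.exists_eq_succ_of_ne_zero h
    rw [Nat.testBit_succ] at hy
    simp at hy
  subst this
  simpa using zero_mem_comb R hj

section step

variable {R : Finset ℕ} {x B1 B2 B3 : ℕ}

lemma cast_sub73 {m : ℕ} (hm : m ≤ 73) : ((73 - m : ℕ) : ZMod 73) = -(m : ZMod 73) := by
  rw [Nat.cast_sub hm]
  have h4 : ((73 : ℕ) : ZMod 73) = 0 := by decide
  rw [h4, zero_sub]

lemma sound_s1 (hx : x ∉ R) (hx2 : x ≤ 36) (h1 : Sound (Comb R 1) B1) :
    Sound (Comb (insert x R) 1) (s1 B1 x) := by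
  refine (h1.mono (comb_mono hx)).or (Sound.or ?_ ?_)
  · refine sound_rot (sound_one R le_rfl) fun z hz => ?_
    have := comb_insert hx 1 (by norm_num : (0 : ℤ) + |1| ≤ 1) hz
    simpa using this
  · refine sound_rot (sound_one R le_rfl) fun z hz => ?_
    have := comb_insert hx (-1) (by norm_num : (0 : ℤ) + |-1| ≤ 1) hz
    rw [cast_sub73 (by omega)]
    simpa using this

lemma sound_s2 (hx : x ∉ R) (hx2 : x ≤ 36) (h1 : Sound (Comb R 1) B1) (h2 : Sound (Comb R 2) B2) :
    Sound (Comb (insert x R) 2) (s2 B1 B2 x) := by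
  refine (h2.mono (comb_mono hx)).or (Sound.or ?_ (Sound.or ?_ (Sound.or ?_ ?_)))
  · refine sound_rot h1 fun z hz => ?_
    have := comb_insert hx 1 (by norm_num : (1 : ℤ) + |1| ≤ 2) hz
    simpa using this
  · refine sound_rot h1 fun z hz => ?_
    have := comb_insert hx (-1) (by norm_num : (1 : ℤ) + |-1| ≤ 2) hz
    rw [cast_sub73 (by omega)]
    simpa using this
  · refine sound_rot (sound_one R le_rfl) fun z hz => ?_
    have := comb_insert hx 2 (by norm_num : (0 : ℤ) + |2| ≤ 2) hz
    push_cast at this ⊢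
    exact this
  · refine sound_rot (sound_one R le_rfl) fun z hz => ?_
    have := comb_insert hx (-2) (by norm_num : (0 : ℤ) + |-2| ≤ 2) hz
    rw [cast_sub73 (by omega)]
    push_cast at this ⊢
    rwa [neg_mul] at this

lemma cast_mod73 (m : ℕ) : ((m % 73 : ℕ) : ZMod 73) = m := by
  rw [ZMod.natCast_mod]

lemma sound_s3 (hx : x ∉ R) (hx2 : x ≤ 36) (h1 : Sound (Comb R 1) B1) (h2 : Sound (Comb R 2) B2)
    (h3 : Sound (Comb R 3) B3) : Sound (Comb (insert x R) 3) (s3 B1 B2 B3 x) := by
  refine (h3.mono (comb_mono hx)).or (Sound.or ?_ (Sound.or ?_ (Sound.or ?_ (Sound.or ?_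
    (Sound.or ?_ ?_)))))
  · refine sound_rot h2 fun z hz => ?_
    have := comb_insert hx 1 (by norm_num : (2 : ℤ) + |1| ≤ 3) hz
    simpa using this
  · refine sound_rot h2 fun z hz => ?_
    have := comb_insert hx (-1) (by norm_num : (2 : ℤ) + |-1| ≤ 3) hz
    rw [cast_sub73 (by omega)]
    simpa using this
  · refine sound_rot h1 fun z hz => ?_
    have := comb_insert hx 2 (by norm_num : (1 : ℤ) + |2| ≤ 3) hz
    push_cast at this ⊢
    exact this
  · refine sound_rot h1 fun z hz => ?_
    have := comb_insert hx (-2) (by norm_num : (1 : ℤ) + |-2| ≤ 3) hz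
    rw [cast_sub73 (by omega)]
    push_cast at this ⊢
    rwa [neg_mul] at this
  · refine sound_rot (sound_one R le_rfl) fun z hz => ?_
    have := comb_insert hx 3 (by norm_num : (0 : ℤ) + |3| ≤ 3) hz
    rw [cast_mod73]
    push_cast at this ⊢
    exact this
  · refine sound_rot (sound_one R le_rfl) fun z hz => ?_
    have := comb_insert hx (-3) (by norm_num : (0 : ℤ) + |-3| ≤ 3) hz
    rw [cast_sub73 (by omega), cast_mod73]
    push_cast at this ⊢
    rwa [neg_mul] at this

/-- a bit of `B_j` that represents `k x` excludes `x` -/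
lemma no_rel {k j : ℤ} (hk : k ≠ 0) (hkj : |k| + j ≤ 4) (hx : x ∉ R) (hI : Ind (insert x R))
    (hz : (k : ZMod 73) * (x : ZMod 73) ∈ Comb R j) : False := by
  classical
  obtain ⟨c, h1, h2⟩ := hz
  have hkpos : 1 ≤ |k| := Int.one_le_abs hk
  have h0 : 0 ≤ ∑ i ∈ R, |c i| := Finset.sum_nonneg fun i _ => abs_nonneg _
  have e1 : ∑ i ∈ insert x R, |if i = x then k else -c i| = |k| + ∑ i ∈ R, |c i| := by
    rw [Finset.sum_insert hx]
    have : ∑ i ∈ R, |if i = x then k else -c i| = ∑ i ∈ R, |c i| := by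
      refine Finset.sum_congr rfl fun i hi => ?_
      rw [if_neg, abs_neg]; rintro rfl; exact hx hi
    simp only [if_true]
    rw [this]
  refine hI (fun i => if i = x then k else -c i) ?_ ?_ ?_
  · rw [e1]; omega
  · rw [e1]; omega
  · rw [Finset.sum_insert hx]
    have : ∑ i ∈ R, (((if i = x then k else -c i : ℤ)) : ZMod 73) * (i : ZMod 73) =
        -∑ i ∈ R, (c i : ZMod 73) * (i : ZMod 73) := by
      rw [← Finset.sum_neg_distrib]
      refine Finset.sum_congr rfl fun i hi => ?_
      rw [if_neg]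
      · push_cast; ring
      · rintro rfl; exact hx hi
    simp only [if_true]
    rw [this, h2]; ring

end step

theorem search_sound (fuel : ℕ) : ∀ (cnt B1 B2 B3 : ℕ) (R : Finset ℕ), fuel ≤ 36 →
    search fuel cnt B1 B2 B3 = true →
    (∀ i ∈ R, i < 37 - fuel) → R.card = cnt → Sound (Comb R 1) B1 → Sound (Comb R 2) B2 →
    Sound (Comb R 3) B3 →
    ∀ S : Finset ℕ, Ind S → R ⊆ S → (∀ i ∈ S, i ∉ R → 37 - fuel ≤ i ∧ i ≤ 36) → S.card < 5 := by
  classical
  induction fuel with
  | zero =>
    intro cnt B1 B2 B3 R _ hs hR hc _ _ _ S hS hRS hSR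
    rw [search_zero] at hs
    have : S = R := by
      refine Finset.Subset.antisymm (fun i hi => ?_) hRS
      by_contra hcon
      have := hSR i hi hcon
      omega
    rw [this, hc]
    rwa [Nat.blt_eq] at hs
  | succ f ih =>
    intro cnt B1 B2 B3 R hf hs hR hc h1 h2 h3 S hS hRS hSR
    rw [search_succ] at hs
    unfold body at hs
    simp only [force_eq] at hs
    have hx36 : 37 - (f + 1) = 36 - f := by omega
    rw [hx36] at hR hSR
    obtain ⟨x, hx⟩ : ∃ x, x = 36 - f := ⟨_, rfl⟩
    rw [← hx] at hs hR hSR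
    have hxR : x ∉ R := fun h => by have := hR x h; omega
    have hx37 : 37 - f = x + 1 := by omega
    rw [Bool.or_eq_true, Bool.and_eq_true] at hs
    rcases hs with hs | ⟨hs1, hs2⟩
    · -- not enough room
      have hlt : cnt + f + 1 < 5 := by rwa [Nat.blt_eq] at hs
      have hsub : S ⊆ R ∪ Finset.Icc x 36 := by
        intro i hi
        rw [Finset.mem_union, Finset.mem_Icc]
        by_cases hiR : i ∈ R
        · exact Or.inl hiR
        · exact Or.inr (hSR i hi hiR)
      have h5 := Finset.card_le_card hsub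
      have h6 := Finset.card_union_le R (Finset.Icc x 36)
      rw [Nat.card_Icc] at h6
      omega
    · by_cases hxS : x ∈ S
      · have hIns : insert x R ⊆ S := by
          intro i hi
          rw [Finset.mem_insert] at hi
          rcases hi with rfl | hi
          · exact hxS
          · exact hRS hi
        have hI : Ind (insert x R) := hS.mono hIns
        rw [Bool.or_eq_true, Bool.or_eq_true, Bool.or_eq_true, Bool.and_eq_true] at hs2
        rcases hs2 with hb | hb | hb | ⟨hb, hb2⟩
        · exact (no_rel (k := 1) (j := 3) (by norm_num) (by norm_num) hxR hI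
            (by simpa using h3 _ hb)).elim
        · exact (no_rel (k := 2) (j := 2) (by norm_num) (by norm_num) hxR hI
            (by have := h2 _ hb; push_cast at this ⊢; exact this)).elim
        · exact (no_rel (k := 3) (j := 1) (by norm_num) (by norm_num) hxR hI
            (by have := h1 _ hb; rw [cast_mod73] at this; push_cast at this ⊢; exact this)).elim
        · refine ih (cnt + 1) _ _ _ (insert x R) (by omega) hb2 ?_ ?_
            (sound_s1 hxR (by omega) h1) (sound_s2 hxR (by omega) h1 h2)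
            (sound_s3 hxR (by omega) h1 h2 h3) S hS hIns ?_
          · intro i hi
            rw [Finset.mem_insert] at hi
            rcases hi with rfl | hi
            · omega
            · have := hR i hi; omega
          · rw [Finset.card_insert_of_notMem hxR, hc]
          · intro i hi hi2
            rw [Finset.mem_insert, not_or] at hi2
            have := hSR i hi hi2.2
            omega
      · refine ih cnt B1 B2 B3 R (by omega) hs1 ?_ hc h1 h2 h3 S hS hRS ?_
        · intro i hi
          have := hR i hi; omega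
        · intro i hi hi2
          have := hSR i hi hi2
          have : i ≠ x := by rintro rfl; exact hxS hi
          omega

/-- **No five-element `4`-independent set of numbers `1, …, 36` containing `1`.** -/
theorem card_lt_five {S : Finset ℕ} (hS : Ind S) (h1 : 1 ∈ S) (hle : ∀ i ∈ S, 1 ≤ i ∧ i ≤ 36) :
    S.card < 5 := by
  refine search_sound 35 1 _ _ _ (insert 1 ∅) (by norm_num) search_true ?_ (by simp)
    (sound_s1 (by simp) (by norm_num) (sound_one ∅ (by norm_num)))
    (sound_s2 (by simp) (by norm_num) (sound_one ∅ (by norm_num)) (sound_one ∅ (by norm_num)))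
    (sound_s3 (by simp) (by norm_num) (sound_one ∅ (by norm_num)) (sound_one ∅ (by norm_num))
      (sound_one ∅ (by norm_num))) S hS ?_ ?_
  · simp
  · simpa using h1
  · intro i hi hi2
    have := hle i hi
    have : i ≠ 1 := by simpa using hi2
    omega

end Pool.Agent.Q153.Tau4
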